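import Mathlib

set_option autoImplicit false

/-! # Modular sets and Stanley sequences: definitions, products, lifts, and the recursion step

`Good A N j m` : a finite set `A` of naturals containing `0`, with maximum `m`, `2^j` elements, free of
three-term progressions modulo `N`, such that every residue outside `A` modulo `N` is `2b - a` with `a < b`
in `A`. Such sets give independent Stanley sequences with character `2m + 1 - N`. -/

namespace Pool.Agent.U447.Stanley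

/-- No nontrivial three-term progressions modulo `M`. -/
def Free (A : Finset ℕ) (M : ℕ) : Prop :=
  ∀ a ∈ A, ∀ b ∈ A, ∀ c ∈ A, (M : ℤ) ∣ (a : ℤ) + c - 2 * b → a = b ∧ b = c

/-- Every residue is hit by `A`, or covered by `2 b - a` with `a < b`. -/
def Cov (A : Finset ℕ) (M : ℕ) : Prop :=
  ∀ r : ℤ, (∃ a ∈ A, (M : ℤ) ∣ (a : ℤ) - r) ∨
    (∃ a ∈ A, ∃ b ∈ A, a < b ∧ (M : ℤ) ∣ 2 * (b : ℤ) - a - r)

/-- First joint covering condition. -/
def P1 (X B : Finset ℕ) (M : ℕ) : Prop :=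
  ∀ r : ℤ, (∃ x ∈ X, ∃ y ∈ B, x ≤ y ∧ (M : ℤ) ∣ 2 * (y : ℤ) - x - r) ∨
    (∃ x ∈ X, ∃ y ∈ B, y < x ∧ (M : ℤ) ∣ 2 * (x : ℤ) - y - 1 - r)

/-- Second joint covering condition. -/
def P2 (X B : Finset ℕ) (M : ℕ) : Prop :=
  ∀ r ∈ B, ∃ x ∈ X, ∃ y ∈ B, x ≤ y ∧ (M : ℤ) ∣ 2 * (y : ℤ) - x - ((r : ℤ) - 1)

structure Good (A : Finset ℕ) (N j m : ℕ) : Prop where
  pos : 0 < N
  zero : 0 ∈ A
  mem : m ∈ A
  le : ∀ a ∈ A, a ≤ m
  card : A.card = 2 ^ j
  free : Free A N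
  cov : Cov A N

structure Pair (X B : Finset ℕ) (M j m : ℕ) : Prop where
  good : Good X M j m
  lt : ∀ b ∈ B, b < m
  card : B.card = 2 ^ j
  free : Free B M
  cov : Cov B M
  p1 : P1 X B M
  p2 : P2 X B M

/-! ### Lifts of the maximum -/

/-- Replace the maximum `m` by `m + s`. -/
def lf (m s : ℕ) (x : ℕ) : ℕ := if x = m then m + s else x

lemma lf_lt {m s x y : ℕ} (hy : y ≤ m) (h : x < y) : lf m s x < lf m s y := by
  unfold lf; split_ifs <;> omega

lemma lf_inj {m s x y : ℕ} (hx : x ≤ m) (hy : y ≤ m) (h : lf m s x = lf m s y) : x = y := by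
  unfold lf at h; split_ifs at h <;> omega

lemma lf_dvd (m M t x : ℕ) : (M : ℤ) ∣ (lf m (M * t) x : ℤ) - x := by
  unfold lf
  split_ifs with h
  · subst h; exact ⟨t, by push_cast; ring⟩
  · simp

lemma dvd_of_sub {M a b : ℤ} (h : M ∣ a) (h2 : M ∣ a - b) : M ∣ b := by
  have := dvd_sub h h2
  simpa using this

theorem Good.lift {A : Finset ℕ} {N j m : ℕ} (h : Good A N j m) (hm : 0 < m) (t : ℕ) :
    Good (A.image (lf m (N * t))) N j (m + N * t) := by
  refine ⟨h.pos, ?_, ?_, ?_, ?_, ?_, ?_⟩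
  · exact Finset.mem_image.mpr ⟨0, h.zero, by unfold lf; rw [if_neg (Nat.ne_of_lt hm)]⟩
  · exact Finset.mem_image.mpr ⟨m, h.mem, by unfold lf; rw [if_pos rfl]⟩
  · intro a ha
    obtain ⟨b, hb, rfl⟩ := Finset.mem_image.mp ha
    have := h.le b hb
    unfold lf; split_ifs <;> omega
  · rw [Finset.card_image_of_injOn, h.card]
    intro x hx y hy hxy
    exact lf_inj (h.le x hx) (h.le y hy) hxy
  · intro a' ha' b' hb' c' hc' hd
    obtain ⟨a, ha, rfl⟩ := Finset.mem_image.mp ha'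
    obtain ⟨b, hb, rfl⟩ := Finset.mem_image.mp hb'
    obtain ⟨c, hc, rfl⟩ := Finset.mem_image.mp hc'
    have h1 := lf_dvd m N t a
    have h2 := lf_dvd m N t b
    have h3 := lf_dvd m N t c
    have h4 : (N : ℤ) ∣ (a : ℤ) + c - 2 * b := by
      have := dvd_sub hd (dvd_sub (dvd_add h1 h3) (h2.mul_left 2))
      have e : (a : ℤ) + c - 2 * b = ((lf m (N * t) a : ℤ) + (lf m (N * t) c) - 2 * (lf m (N * t) b))
        - ((((lf m (N * t) a : ℤ) - a) + ((lf m (N * t) c : ℤ) - c)) - 2 * ((lf m (N * t) b : ℤ) - b)) := by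
        ring
      rw [e]; exact this
    obtain ⟨e1, e2⟩ := h.free a ha b hb c hc h4
    subst e1; subst e2
    exact ⟨rfl, rfl⟩
  · intro r
    rcases h.cov r with ⟨a, ha, hd⟩ | ⟨a, ha, b, hb, hab, hd⟩
    · left
      refine ⟨lf m (N * t) a, Finset.mem_image_of_mem _ ha, ?_⟩
      have := dvd_add hd (lf_dvd m N t a)
      have e : (lf m (N * t) a : ℤ) - r = ((a : ℤ) - r) + ((lf m (N * t) a : ℤ) - a) := by ring
      rw [e]; exact this
    · right
      refine ⟨lf m (N * t) a, Finset.mem_image_of_mem _ ha, lf m (N * t) b, Finset.mem_image_of_mem _ hb,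
        lf_lt (h.le b hb) hab, ?_⟩
      have := dvd_add hd (dvd_sub ((lf_dvd m N t b).mul_left 2) (lf_dvd m N t a))
      have e : 2 * (lf m (N * t) b : ℤ) - (lf m (N * t) a : ℤ) - r = (2 * (b : ℤ) - a - r)
        + (2 * ((lf m (N * t) b : ℤ) - b) - ((lf m (N * t) a : ℤ) - a)) := by ring
      rw [e]; exact this

lemma lf_ge (m s x : ℕ) : x ≤ lf m s x := by unfold lf; split_ifs <;> omega

theorem Pair.lift {X B : Finset ℕ} {M j m : ℕ} (h : Pair X B M j m) (t : ℕ) :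
    Pair (X.image (lf m (M * t))) B M j (m + M * t) := by
  have hm : 0 < m := by
    have hB : B.Nonempty := by
      rw [← Finset.card_pos, h.card]; positivity
    obtain ⟨b, hb⟩ := hB
    exact lt_of_le_of_lt (Nat.zero_le _) (h.lt b hb)
  refine ⟨h.good.lift hm t, fun b hb => lt_of_lt_of_le (h.lt b hb) (Nat.le_add_right _ _), h.card, h.free,
    h.cov, ?_, ?_⟩
  · intro r
    rcases h.p1 r with ⟨x, hx, y, hy, hxy, hd⟩ | ⟨x, hx, y, hy, hxy, hd⟩
    · left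
      have hxm : x ≠ m := by have := h.lt y hy; omega
      refine ⟨x, Finset.mem_image.mpr ⟨x, hx, by unfold lf; rw [if_neg hxm]⟩, y, hy, hxy, hd⟩
    · right
      refine ⟨lf m (M * t) x, Finset.mem_image_of_mem _ hx, y, hy, lt_of_lt_of_le hxy (lf_ge _ _ _), ?_⟩
      have := dvd_add hd ((lf_dvd m M t x).mul_left 2)
      have e : 2 * (lf m (M * t) x : ℤ) - y - 1 - r = (2 * (x : ℤ) - y - 1 - r)
        + 2 * ((lf m (M * t) x : ℤ) - x) := by ring
      rw [e]; exact this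
  · intro r hr
    obtain ⟨x, hx, y, hy, hxy, hd⟩ := h.p2 r hr
    have hxm : x ≠ m := by have := h.lt y hy; omega
    exact ⟨x, Finset.mem_image.mpr ⟨x, hx, by unfold lf; rw [if_neg hxm]⟩, y, hy, hxy, hd⟩

/-! ### Products -/

/-- `A + N B`. -/
def prd (A B : Finset ℕ) (N : ℕ) : Finset ℕ := (A ×ˢ B).image (fun p => p.1 + N * p.2)

lemma mem_prd {A B : Finset ℕ} {N x : ℕ} : x ∈ prd A B N ↔ ∃ a ∈ A, ∃ b ∈ B, x = a + N * b := by
  unfold prd
  constructor
  · intro h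
    obtain ⟨⟨a, b⟩, hp, rfl⟩ := Finset.mem_image.mp h
    rw [Finset.mem_product] at hp
    exact ⟨a, hp.1, b, hp.2, rfl⟩
  · rintro ⟨a, ha, b, hb, rfl⟩
    exact Finset.mem_image.mpr ⟨(a, b), Finset.mem_product.mpr ⟨ha, hb⟩, rfl⟩

/-- Freeness gives injectivity modulo `N`. -/
lemma Free.inj {A : Finset ℕ} {N : ℕ} (h : Free A N) {a b : ℕ} (ha : a ∈ A) (hb : b ∈ A)
    (hd : (N : ℤ) ∣ (a : ℤ) - b) : a = b := by
  have : (N : ℤ) ∣ (a : ℤ) + a - 2 * b := by
    have e : (a : ℤ) + a - 2 * b = 2 * ((a : ℤ) - b) := by ring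
    rw [e]; exact hd.mul_left 2
  exact (h a ha b hb a ha this).1

lemma card_prd {A B : Finset ℕ} {N : ℕ} (hN : 0 < N) (h : Free A N) :
    (prd A B N).card = A.card * B.card := by
  unfold prd
  rw [Finset.card_image_of_injOn, Finset.card_product]
  rintro ⟨a, b⟩ hp ⟨a', b'⟩ hp' he
  simp only [Finset.coe_product, Set.mem_prod, Finset.mem_coe] at hp hp' he
  have he' : (a : ℤ) + N * b = a' + N * b' := by exact_mod_cast he
  have h1 : a = a' := h.inj hp.1 hp'.1 ⟨(b' : ℤ) - b, by linarith⟩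
  subst h1
  have h2 : N * b = N * b' := by omega
  have h3 := Nat.eq_of_mul_eq_mul_left hN h2
  subst h3; rfl

lemma free_prd {A B : Finset ℕ} {N M : ℕ} (hN : 0 < N) (hA : Free A N) (hB : Free B M) :
    Free (prd A B N) (N * M) := by
  intro x hx y hy z hz hd
  obtain ⟨a, ha, b, hb, rfl⟩ := mem_prd.mp hx
  obtain ⟨a', ha', b', hb', rfl⟩ := mem_prd.mp hy
  obtain ⟨a'', ha'', b'', hb'', rfl⟩ := mem_prd.mp hz
  obtain ⟨k, hk⟩ := hd
  push_cast at hk
  have h1 : (N : ℤ) ∣ (a : ℤ) + a'' - 2 * a' := ⟨M * k + 2 * b' - b - b'', by linarith⟩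
  obtain ⟨e1, e2⟩ := hA a ha a' ha' a'' ha'' h1
  subst e1; subst e2
  have hN' : (N : ℤ) ≠ 0 := by exact_mod_cast hN.ne'
  have h2 : (M : ℤ) ∣ (b : ℤ) + b'' - 2 * b' := by
    refine ⟨k, ?_⟩
    have : (N : ℤ) * ((b : ℤ) + b'' - 2 * b') = N * (M * k) := by linarith
    exact mul_left_cancel₀ hN' this
  obtain ⟨e1, e2⟩ := hB b hb b' hb' b'' hb'' h2
  subst e1; subst e2
  exact ⟨rfl, rfl⟩

/-- A residue is hit or covered with `c ≤ c'`. -/
lemma Cov.le {B : Finset ℕ} {M : ℕ} (h : Cov B M) (r : ℤ) :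
    ∃ c ∈ B, ∃ c' ∈ B, c ≤ c' ∧ (M : ℤ) ∣ 2 * (c' : ℤ) - c - r := by
  rcases h r with ⟨a, ha, hd⟩ | ⟨a, ha, b, hb, hab, hd⟩
  · exact ⟨a, ha, a, ha, le_rfl, by have e : 2 * (a : ℤ) - a - r = a - r := by ring
                                    rw [e]; exact hd⟩
  · exact ⟨a, ha, b, hb, hab.le, hd⟩

lemma cov_prd {A B : Finset ℕ} {N M : ℕ} (hN : 0 < N) (hA : Cov A N) (hB : Cov B M) :
    Cov (prd A B N) (N * M) := by
  intro r
  rcases hA r with ⟨a, ha, k, hk⟩ | ⟨a, ha, a', ha', haa, k, hk⟩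
  · -- r = a - N k
    rcases hB (-k) with ⟨b, hb, l, hl⟩ | ⟨b, hb, b', hb', hbb, l, hl⟩
    · left
      refine ⟨a + N * b, mem_prd.mpr ⟨a, ha, b, hb, rfl⟩, l, ?_⟩
      push_cast
      linear_combination hk + N * hl
    · right
      refine ⟨a + N * b, mem_prd.mpr ⟨a, ha, b, hb, rfl⟩, a + N * b', mem_prd.mpr ⟨a, ha, b', hb', rfl⟩,
        by have := Nat.mul_lt_mul_of_pos_left hbb hN; omega, l, ?_⟩
      push_cast
      linear_combination hk + N * hl
  · right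
    obtain ⟨b, hb, b', hb', hbb, l, hl⟩ := hB.le (-k)
    refine ⟨a + N * b, mem_prd.mpr ⟨a, ha, b, hb, rfl⟩, a' + N * b', mem_prd.mpr ⟨a', ha', b', hb', rfl⟩,
      by have := Nat.mul_le_mul_left N hbb; omega, l, ?_⟩
    push_cast
    linear_combination hk + N * hl

theorem Good.prd {A B : Finset ℕ} {N M j k m m' : ℕ} (hA : Good A N j m) (hB : Good B M k m') :
    Good (prd A B N) (N * M) (j + k) (m + N * m') := by
  refine ⟨Nat.mul_pos hA.pos hB.pos, mem_prd.mpr ⟨0, hA.zero, 0, hB.zero, by simp⟩,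
    mem_prd.mpr ⟨m, hA.mem, m', hB.mem, rfl⟩, ?_, ?_, free_prd hA.pos hA.free hB.free,
    cov_prd hA.pos hA.cov hB.cov⟩
  · intro x hx
    obtain ⟨a, ha, b, hb, rfl⟩ := mem_prd.mp hx
    have h1 := hA.le a ha
    have h2 := Nat.mul_le_mul_left N (hB.le b hb)
    omega
  · rw [card_prd hA.pos hA.free, hA.card, hB.card, pow_add]

end Pool.Agent.U447.Stanley
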