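import Mathlib
import Pool.Agent.U447.Stanley.Defs

set_option autoImplicit false

/-! # Finite base sets, verified by kernel evaluation -/

namespace Pool.Agent.U447.Stanley

def freeB (A : List ℕ) (M : ℕ) : Bool :=
  A.all fun a => A.all fun b => A.all fun c =>
    !((a + c) % M == (2 * b) % M) || (a == b && b == c)

def covB (A : List ℕ) (M : ℕ) : Bool :=
  (List.range M).all fun r => A.any (fun a => a % M == r) ||
    A.any (fun a => A.any fun b => decide (a < b) && (2 * b) % M == (a + r) % M)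

def p1B (X B : List ℕ) (M : ℕ) : Bool :=
  (List.range M).all fun r => X.any fun x => B.any fun y =>
    (decide (x ≤ y) && (2 * y) % M == (x + r) % M) || (decide (y < x) && (2 * x) % M == (y + 1 + r) % M)

def p2B (X B : List ℕ) (M : ℕ) : Bool :=
  B.all fun r => X.any fun x => B.any fun y => decide (x ≤ y) && (2 * y + 1) % M == (x + r) % M

def goodB (A : List ℕ) (N j m : ℕ) : Bool :=
  decide (0 < N) && A.contains 0 && A.contains m && (A.all fun a => decide (a ≤ m)) &&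
    decide A.Nodup && (A.length == 2 ^ j) && freeB A N && covB A N

def pairB (X B : List ℕ) (M j m : ℕ) : Bool :=
  goodB X M j m && (B.all fun b => decide (b < m)) && decide B.Nodup && (B.length == 2 ^ j) &&
    freeB B M && covB B M && p1B X B M && p2B X B M

lemma modeq_of_dvd {M a b : ℕ} (h : (M : ℤ) ∣ (a : ℤ) - b) : a % M = b % M := by
  have : (b : ℤ) ≡ a [ZMOD M] := Int.modEq_iff_dvd.mpr h
  exact ((Int.natCast_modEq_iff.mp this).symm)

lemma dvd_of_modeq {M a b : ℕ} (h : a % M = b % M) : (M : ℤ) ∣ (a : ℤ) - b := by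
  have : b ≡ a [MOD M] := h.symm
  exact Int.modEq_iff_dvd.mp (Int.natCast_modEq_iff.mpr this)

lemma exists_rep {M : ℕ} (hM : 0 < M) (r : ℤ) : ∃ s : ℕ, s < M ∧ (M : ℤ) ∣ (s : ℤ) - r := by
  have hM' : (0 : ℤ) < M := by exact_mod_cast hM
  refine ⟨(r % M).toNat, ?_, ?_⟩
  · have := Int.emod_lt_of_pos r hM'
    have := Int.emod_nonneg r hM'.ne'
    omega
  · have h1 := Int.emod_nonneg r hM'.ne'
    rw [Int.toNat_of_nonneg h1]
    exact ⟨-(r / M), by have := Int.emod_add_mul_ediv r M; linarith⟩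

lemma free_of {A : List ℕ} {M : ℕ} (h : freeB A M = true) : Free A.toFinset M := by
  intro a ha b hb c hc hd
  rw [List.mem_toFinset] at ha hb hc
  unfold freeB at h
  rw [List.all_eq_true] at h
  have h1 := h a ha
  rw [List.all_eq_true] at h1
  have h2 := h1 b hb
  rw [List.all_eq_true] at h2
  have h3 := h2 c hc
  have h4 : (a + c) % M = (2 * b) % M := by
    apply modeq_of_dvd; push_cast; exact hd
  simpa [h4] using h3

lemma cov_of {A : List ℕ} {M : ℕ} (hM : 0 < M) (h : covB A M = true) : Cov A.toFinset M := by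
  intro r
  obtain ⟨s, hs, hd⟩ := exists_rep hM r
  unfold covB at h
  rw [List.all_eq_true] at h
  have h1 := h s (List.mem_range.mpr hs)
  rw [Bool.or_eq_true, List.any_eq_true, List.any_eq_true] at h1
  rcases h1 with ⟨a, ha, h2⟩ | ⟨a, ha, h2⟩
  · left
    refine ⟨a, List.mem_toFinset.mpr ha, ?_⟩
    have h3 : a % M = s % M := by rw [Nat.mod_eq_of_lt hs]; simpa using h2
    have := dvd_add (dvd_of_modeq h3) hd
    have e : (a : ℤ) - r = (a : ℤ) - s + (s - r) := by ring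
    rw [e]; exact this
  · right
    rw [List.any_eq_true] at h2
    obtain ⟨b, hb, h3⟩ := h2
    rw [Bool.and_eq_true] at h3
    refine ⟨a, List.mem_toFinset.mpr ha, b, List.mem_toFinset.mpr hb, by simpa using h3.1, ?_⟩
    have h4 : (2 * b) % M = (a + s) % M := by simpa using h3.2
    have := dvd_add (dvd_of_modeq h4) hd
    push_cast at this
    have e : 2 * (b : ℤ) - a - r = 2 * (b : ℤ) - (a + s) + (s - r) := by ring
    rw [e]; exact this

lemma p1_of {X B : List ℕ} {M : ℕ} (hM : 0 < M) (h : p1B X B M = true) :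
    P1 X.toFinset B.toFinset M := by
  intro r
  obtain ⟨s, hs, hd⟩ := exists_rep hM r
  unfold p1B at h
  rw [List.all_eq_true] at h
  have h1 := h s (List.mem_range.mpr hs)
  rw [List.any_eq_true] at h1
  obtain ⟨x, hx, h2⟩ := h1
  rw [List.any_eq_true] at h2
  obtain ⟨y, hy, h3⟩ := h2
  rw [Bool.or_eq_true, Bool.and_eq_true, Bool.and_eq_true] at h3
  rcases h3 with ⟨h3, h4⟩ | ⟨h3, h4⟩
  · left
    refine ⟨x, List.mem_toFinset.mpr hx, y, List.mem_toFinset.mpr hy, by simpa using h3, ?_⟩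
    have h4 : (2 * y) % M = (x + s) % M := by simpa using h4
    have := dvd_add (dvd_of_modeq h4) hd
    push_cast at this
    have e : 2 * (y : ℤ) - x - r = 2 * (y : ℤ) - (x + s) + (s - r) := by ring
    rw [e]; exact this
  · right
    refine ⟨x, List.mem_toFinset.mpr hx, y, List.mem_toFinset.mpr hy, by simpa using h3, ?_⟩
    have h4 : (2 * x) % M = (y + 1 + s) % M := by simpa using h4
    have := dvd_add (dvd_of_modeq h4) hd
    push_cast at this
    have e : 2 * (x : ℤ) - y - 1 - r = 2 * (x : ℤ) - (y + 1 + s) + (s - r) := by ring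
    rw [e]; exact this

lemma p2_of {X B : List ℕ} {M : ℕ} (h : p2B X B M = true) :
    P2 X.toFinset B.toFinset M := by
  intro r hr
  rw [List.mem_toFinset] at hr
  unfold p2B at h
  rw [List.all_eq_true] at h
  have h1 := h r hr
  rw [List.any_eq_true] at h1
  obtain ⟨x, hx, h2⟩ := h1
  rw [List.any_eq_true] at h2
  obtain ⟨y, hy, h3⟩ := h2
  rw [Bool.and_eq_true] at h3
  refine ⟨x, List.mem_toFinset.mpr hx, y, List.mem_toFinset.mpr hy, by simpa using h3.1, ?_⟩
  have h4 : (2 * y + 1) % M = (x + r) % M := by simpa using h3.2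
  have := dvd_of_modeq h4
  push_cast at this
  have e : 2 * (y : ℤ) - x - (r - 1) = 2 * (y : ℤ) + 1 - (x + r) := by ring
  rw [e]; exact this

lemma good_of {A : List ℕ} {N j m : ℕ} (h : goodB A N j m = true) : Good A.toFinset N j m := by
  unfold goodB at h
  simp only [Bool.and_eq_true] at h
  obtain ⟨⟨⟨⟨⟨⟨⟨h1, h2⟩, h3⟩, h4⟩, h5⟩, h6⟩, h7⟩, h8⟩ := h
  have hN : 0 < N := by simpa using h1
  refine ⟨hN, ?_, ?_, ?_, ?_, free_of h7, cov_of hN h8⟩
  · rw [List.mem_toFinset]; simpa using h2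
  · rw [List.mem_toFinset]; simpa using h3
  · intro a ha
    rw [List.mem_toFinset] at ha
    rw [List.all_eq_true] at h4
    simpa using h4 a ha
  · rw [List.toFinset_card_of_nodup (by simpa using h5)]; simpa using h6

lemma pair_of {X B : List ℕ} {M j m : ℕ} (h : pairB X B M j m = true) :
    Pair X.toFinset B.toFinset M j m := by
  unfold pairB at h
  simp only [Bool.and_eq_true] at h
  obtain ⟨⟨⟨⟨⟨⟨⟨h1, h2⟩, h3⟩, h4⟩, h5⟩, h6⟩, h7⟩, h8⟩ := h
  have hg := good_of h1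
  refine ⟨hg, ?_, ?_, free_of h5, cov_of hg.pos h6, p1_of hg.pos h7, p2_of h8⟩
  · intro b hb
    rw [List.mem_toFinset] at hb
    rw [List.all_eq_true] at h2
    simpa using h2 b hb
  · rw [List.toFinset_card_of_nodup (by simpa using h3)]; simpa using h4

/-- `GdL lam N`: there is a modular set modulo `N` with character `lam`. -/
def GdL (lam N : ℕ) : Prop := ∃ (A : Finset ℕ) (j m : ℕ), Good A N j m ∧ 2 * m + 1 = lam + N

/-- `PrL lam M`: there is a pair modulo `M` with character `lam`. -/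
def PrL (lam M : ℕ) : Prop := ∃ (X B : Finset ℕ) (j m : ℕ), Pair X B M j m ∧ 2 * m + 1 = lam + M

lemma PrL.gl {lam M : ℕ} (h : PrL lam M) : GdL lam M := by
  obtain ⟨X, B, j, m, h1, h2⟩ := h
  exact ⟨X, j, m, h1.good, h2⟩

lemma PrL.lift {lam M : ℕ} (h : PrL lam M) (t : ℕ) : PrL (lam + 2 * M * t) M := by
  obtain ⟨X, B, j, m, h1, h2⟩ := h
  exact ⟨_, B, j, _, h1.lift t, by rw [Nat.mul_add, ← Nat.mul_assoc]; omega⟩

lemma g0 : GdL 0 3 :=
  ⟨_, 1, 1, good_of (A := [0, 1]) (by decide +kernel), by norm_num⟩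

lemma g2 : GdL 2 3 :=
  ⟨_, 1, 2, good_of (A := [0, 2]) (by decide +kernel), by norm_num⟩

lemma g7 : GdL 7 10 :=
  ⟨_, 2, 8, good_of (A := [0, 1, 7, 8]) (by decide +kernel), by norm_num⟩

lemma g17 : GdL 17 28 :=
  ⟨_, 3, 22, good_of (A := [0, 4, 5, 9, 15, 17, 20, 22]) (by decide +kernel), by norm_num⟩

lemma g21 : GdL 21 30 :=
  ⟨_, 3, 25, good_of (A := [0, 1, 3, 4, 21, 22, 24, 25]) (by decide +kernel), by norm_num⟩

lemma e4 : PrL 4 9 :=
  ⟨_, _, 2, 6, pair_of (X := [0, 2, 5, 6])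
    (B := [0, 2, 3, 5]) (by decide +kernel), by norm_num⟩

lemma e16 : PrL 16 9 :=
  ⟨_, _, 2, 12, pair_of (X := [0, 1, 4, 12])
    (B := [1, 2, 4, 5]) (by decide +kernel), by norm_num⟩

lemma e10 : PrL 10 27 :=
  ⟨_, _, 3, 18, pair_of (X := [0, 1, 6, 7, 10, 15, 16, 18])
    (B := [1, 2, 7, 8, 10, 11, 16, 17]) (by decide +kernel), by norm_num⟩

lemma e46 : PrL 46 27 :=
  ⟨_, _, 3, 36, pair_of (X := [0, 1, 3, 4, 10, 13, 21, 36])
    (B := [4, 5, 7, 8, 13, 14, 16, 17]) (by decide +kernel), by norm_num⟩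

lemma o13 : PrL 13 30 :=
  ⟨_, _, 3, 21, pair_of (X := [0, 1, 7, 8, 17, 18, 20, 21])
    (B := [1, 2, 8, 9, 11, 12, 18, 19]) (by decide +kernel), by norm_num⟩

lemma o37 : PrL 37 28 :=
  ⟨_, _, 3, 32, pair_of (X := [0, 1, 3, 19, 20, 22, 23, 32])
    (B := [0, 1, 3, 4, 19, 20, 22, 23]) (by decide +kernel), by norm_num⟩

lemma o25 : PrL 25 32 :=
  ⟨_, _, 3, 28, pair_of (X := [0, 2, 3, 5, 23, 25, 26, 28])
    (B := [3, 5, 10, 12, 16, 18, 23, 25]) (by decide +kernel), by norm_num⟩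

lemma o73 : PrL 73 28 :=
  ⟨_, _, 3, 50, pair_of (X := [0, 1, 3, 4, 19, 20, 23, 50])
    (B := [1, 2, 4, 5, 20, 21, 23, 24]) (by decide +kernel), by norm_num⟩

lemma o31 : PrL 31 28 :=
  ⟨_, _, 3, 29, pair_of (X := [0, 5, 11, 13, 16, 18, 24, 29])
    (B := [2, 6, 7, 11, 17, 19, 22, 24]) (by decide +kernel), by norm_num⟩

lemma o91 : PrL 91 28 :=
  ⟨_, _, 3, 59, pair_of (X := [0, 5, 11, 15, 16, 20, 26, 59])
    (B := [35, 36, 38, 39, 54, 55, 57, 58]) (by decide +kernel), by norm_num⟩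

lemma o43 : PrL 43 30 :=
  ⟨_, _, 3, 36, pair_of (X := [0, 7, 9, 10, 17, 19, 26, 36])
    (B := [11, 12, 14, 15, 21, 24, 25, 32]) (by decide +kernel), by norm_num⟩

lemma o127 : PrL 127 30 :=
  ⟨_, _, 3, 78, pair_of (X := [0, 1, 7, 8, 10, 11, 17, 78])
    (B := [3, 4, 6, 7, 13, 16, 17, 24]) (by decide +kernel), by norm_num⟩

lemma o49 : PrL 49 90 :=
  ⟨_, _, 4, 69, pair_of (X := [0, 2, 3, 9, 13, 20, 22, 29, 30, 33, 43, 50, 52, 59, 62, 69])
    (B := [4, 5, 7, 8, 15, 18, 24, 27, 34, 35, 37, 38, 45, 48, 54, 57]) (by decide +kernel), by norm_num⟩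

lemma o145 : PrL 145 90 :=
  ⟨_, _, 4, 117, pair_of (X := [0, 7, 29, 30, 37, 50, 56, 59, 66, 79, 86, 87, 96, 109, 110, 117])
    (B := [54, 55, 61, 62, 74, 75, 81, 82, 84, 85, 91, 92, 104, 105, 111, 112]) (by decide +kernel), by norm_num⟩

lemma o61 : PrL 61 90 :=
  ⟨_, _, 4, 75, pair_of (X := [0, 3, 7, 9, 10, 12, 28, 31, 58, 61, 63, 66, 67, 70, 72, 75])
    (B := [20, 21, 27, 28, 30, 31, 37, 38, 50, 51, 57, 58, 60, 61, 67, 68]) (by decide +kernel), by norm_num⟩

lemma o181 : PrL 181 84 :=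
  ⟨_, _, 4, 132, pair_of (X := [0, 16, 19, 25, 28, 44, 47, 53, 73, 82, 85, 101, 104, 110, 113, 132])
    (B := [22, 26, 27, 31, 37, 39, 42, 44, 50, 54, 55, 59, 65, 67, 70, 72]) (by decide +kernel), by norm_num⟩

lemma o19 : PrL 19 30 :=
  ⟨_, _, 3, 24, pair_of (X := [0, 3, 10, 11, 13, 14, 21, 24])
    (B := [0, 1, 3, 4, 10, 13, 14, 21]) (by decide +kernel), by norm_num⟩

lemma o55 : PrL 55 90 :=
  ⟨_, _, 4, 72, pair_of (X := [0, 9, 14, 17, 30, 33, 35, 38, 39, 42, 44, 47, 63, 65, 68, 72])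
    (B := [15, 17, 18, 20, 36, 38, 39, 41, 45, 47, 48, 50, 66, 68, 69, 71]) (by decide +kernel), by norm_num⟩

end Pool.Agent.U447.Stanley
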