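import Mathlib
import Pool.Agent.U447.Stanley.Defs

set_option autoImplicit false

/-! # The recursion `λ - 1 ↦ 9 (λ - 1)` for pairs -/

namespace Pool.Agent.U447.Stanley

def C4 : Finset ℕ := {0, 2, 3, 5}

lemma free_C4 : Free C4 9 := by
  intro a ha b hb c hc h
  simp only [C4, Finset.mem_insert, Finset.mem_singleton] at ha hb hc
  obtain ⟨k, hk⟩ := h
  push_cast at hk
  rcases ha with rfl | rfl | rfl | rfl <;> rcases hb with rfl | rfl | rfl | rfl <;>
    rcases hc with rfl | rfl | rfl | rfl <;> first | exact ⟨rfl, rfl⟩ | (exfalso; push_cast at hk; omega)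

lemma cov_C4 : Cov C4 9 := by
  intro r
  have h0 : r = r % 9 + 9 * (r / 9) := by omega
  have h1 : 0 ≤ r % 9 := by omega
  have h2 : r % 9 < 9 := by omega
  generalize r % 9 = s at h0 h1 h2
  generalize r / 9 = q at h0
  subst h0
  interval_cases s
  · left; exact ⟨0, by decide, -q, by push_cast; ring⟩
  · right; exact ⟨0, by decide, 5, by decide, by decide, 1 - q, by push_cast; ring⟩
  · left; exact ⟨2, by decide, -q, by push_cast; ring⟩
  · left; exact ⟨3, by decide, -q, by push_cast; ring⟩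
  · right; exact ⟨2, by decide, 3, by decide, by decide, - q, by push_cast; ring⟩
  · left; exact ⟨5, by decide, -q, by push_cast; ring⟩
  · right; exact ⟨0, by decide, 3, by decide, by decide, - q, by push_cast; ring⟩
  · right; exact ⟨3, by decide, 5, by decide, by decide, - q, by push_cast; ring⟩
  · right; exact ⟨2, by decide, 5, by decide, by decide, - q, by push_cast; ring⟩

def C3 : Finset ℕ := {2, 3, 5}

/-- The new set `9 X ∪ ({2,3,5} + 9 B)`. -/
def nX (X B : Finset ℕ) : Finset ℕ := X.image (fun x => 9 * x) ∪ prd C3 B 9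

/-- The new companion `{0,2,3,5} + 9 B`. -/
def nB (B : Finset ℕ) : Finset ℕ := prd C4 B 9

lemma mem_nX_zero {X B : Finset ℕ} {x : ℕ} (hx : x ∈ X) : 9 * x ∈ nX X B :=
  Finset.mem_union_left _ (Finset.mem_image_of_mem _ hx)

lemma mem_nX_of {X B : Finset ℕ} {a b : ℕ} (ha : a ∈ C3) (hb : b ∈ B) : a + 9 * b ∈ nX X B :=
  Finset.mem_union_right _ (mem_prd.mpr ⟨a, ha, b, hb, rfl⟩)

lemma mem_nB_of {B : Finset ℕ} {a b : ℕ} (ha : a ∈ C4) (hb : b ∈ B) : a + 9 * b ∈ nB B :=
  mem_prd.mpr ⟨a, ha, b, hb, rfl⟩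

lemma mem_nX {X B : Finset ℕ} {x : ℕ} (h : x ∈ nX X B) :
    ∃ a ∈ C4, ∃ c, x = a + 9 * c ∧ (a = 0 → c ∈ X) ∧ (a ≠ 0 → c ∈ B) := by
  rcases Finset.mem_union.mp h with h | h
  · obtain ⟨x, hx, rfl⟩ := Finset.mem_image.mp h
    exact ⟨0, by decide, x, by simp, fun _ => hx, fun h => absurd rfl h⟩
  · obtain ⟨a, ha, b, hb, rfl⟩ := mem_prd.mp h
    refine ⟨a, ?_, b, rfl, ?_, fun _ => hb⟩
    · simp only [C3, C4, Finset.mem_insert, Finset.mem_singleton] at ha ⊢; tauto
    · intro h0; subst h0; simp [C3] at ha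

lemma card_C3 : C3.card = 3 := by decide
lemma card_C4 : C4.card = 4 := by decide

lemma free_C3 : Free C3 9 := by
  intro a ha b hb c hc h
  refine free_C4 a ?_ b ?_ c ?_ h <;>
    simp only [C3, C4, Finset.mem_insert, Finset.mem_singleton] at ha hb hc ⊢ <;> tauto

theorem card_nX {X B : Finset ℕ} {j : ℕ} (hX : X.card = 2 ^ j) (hB : B.card = 2 ^ j) :
    (nX X B).card = 2 ^ (j + 2) := by
  unfold nX
  rw [Finset.card_union_of_disjoint, Finset.card_image_of_injective, card_prd (by norm_num) free_C3, card_C3,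
    hX, hB, pow_add]
  · ring
  · intro a b h; simpa using h
  · rw [Finset.disjoint_left]
    intro x hx hx'
    obtain ⟨y, _, rfl⟩ := Finset.mem_image.mp hx
    obtain ⟨a, ha, b, _, e⟩ := mem_prd.mp hx'
    simp only [C3, Finset.mem_insert, Finset.mem_singleton] at ha
    rcases ha with rfl | rfl | rfl <;> omega

theorem free_nX {X B : Finset ℕ} {M : ℕ} (hX : Free X M) (hB : Free B M) :
    Free (nX X B) (9 * M) := by
  intro x hx y hy z hz hd
  obtain ⟨a, ha, c, rfl, h0, h1⟩ := mem_nX hx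
  obtain ⟨a', ha', c', rfl, h0', h1'⟩ := mem_nX hy
  obtain ⟨a'', ha'', c'', rfl, h0'', h1''⟩ := mem_nX hz
  obtain ⟨k, hk⟩ := hd
  push_cast at hk
  have h2 : ((9 : ℕ) : ℤ) ∣ (a : ℤ) + a'' - 2 * a' :=
    ⟨M * k + 2 * c' - c - c'', by push_cast; linarith⟩
  obtain ⟨e1, e2⟩ := free_C4 a ha a' ha' a'' ha'' h2
  subst e1; subst e2
  have h3 : (M : ℤ) ∣ (c : ℤ) + c'' - 2 * c' := ⟨k, by linarith⟩
  by_cases hz : a = 0
  · obtain ⟨e1, e2⟩ := hX c (h0 hz) c' (h0' hz) c'' (h0'' hz) h3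
    subst e1; subst e2; exact ⟨rfl, rfl⟩
  · obtain ⟨e1, e2⟩ := hB c (h1 hz) c' (h1' hz) c'' (h1'' hz) h3
    subst e1; subst e2; exact ⟨rfl, rfl⟩

theorem cov_nX {X B : Finset ℕ} {M : ℕ} (hX : Cov X M) (hB : Cov B M) (hP1 : P1 X B M)
    (hP2 : P2 X B M) : Cov (nX X B) (9 * M) := by
  intro r
  have h0 : r = r % 9 + 9 * (r / 9) := by omega
  have h1 : 0 ≤ r % 9 := by omega
  have h2 : r % 9 < 9 := by omega
  generalize r % 9 = s at h0 h1 h2
  generalize r / 9 = q at h0
  subst h0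
  interval_cases s
  · -- 0
    rcases hX q with ⟨a, ha, k, hk⟩ | ⟨a, ha, b, hb, hab, k, hk⟩
    · left; exact ⟨9 * a, mem_nX_zero ha, k, by push_cast; linarith⟩
    · right; exact ⟨9 * a, mem_nX_zero ha, 9 * b, mem_nX_zero hb, by omega, k, by push_cast; linarith⟩
  · -- 1
    rcases hB q with ⟨b, hb, k, hk⟩ | ⟨a, ha, b, hb, hab, k, hk⟩
    · obtain ⟨x, hx, y, hy, hxy, l, hl⟩ := hP2 b hb
      right
      exact ⟨9 * x, mem_nX_zero hx, 5 + 9 * y, mem_nX_of (by decide) hy, by omega, k + l,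
        by push_cast; linarith⟩
    · right
      exact ⟨3 + 9 * a, mem_nX_of (by decide) ha, 2 + 9 * b, mem_nX_of (by decide) hb, by omega, k,
        by push_cast; linarith⟩
  · -- 2
    rcases hB q with ⟨b, hb, k, hk⟩ | ⟨a, ha, b, hb, hab, k, hk⟩
    · left; exact ⟨2 + 9 * b, mem_nX_of (by decide) hb, k, by push_cast; linarith⟩
    · right
      exact ⟨2 + 9 * a, mem_nX_of (by decide) ha, 2 + 9 * b, mem_nX_of (by decide) hb, by omega, k,
        by push_cast; linarith⟩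
  · -- 3
    rcases hB q with ⟨b, hb, k, hk⟩ | ⟨a, ha, b, hb, hab, k, hk⟩
    · left; exact ⟨3 + 9 * b, mem_nX_of (by decide) hb, k, by push_cast; linarith⟩
    · right
      exact ⟨3 + 9 * a, mem_nX_of (by decide) ha, 3 + 9 * b, mem_nX_of (by decide) hb, by omega, k,
        by push_cast; linarith⟩
  · -- 4
    obtain ⟨a, ha, b, hb, hab, k, hk⟩ := hB.le q
    right
    exact ⟨2 + 9 * a, mem_nX_of (by decide) ha, 3 + 9 * b, mem_nX_of (by decide) hb, by omega, k,
      by push_cast; linarith⟩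
  · -- 5
    rcases hB q with ⟨b, hb, k, hk⟩ | ⟨a, ha, b, hb, hab, k, hk⟩
    · left; exact ⟨5 + 9 * b, mem_nX_of (by decide) hb, k, by push_cast; linarith⟩
    · right
      exact ⟨5 + 9 * a, mem_nX_of (by decide) ha, 5 + 9 * b, mem_nX_of (by decide) hb, by omega, k,
        by push_cast; linarith⟩
  · -- 6
    rcases hP1 q with ⟨x, hx, y, hy, hxy, k, hk⟩ | ⟨x, hx, y, hy, hxy, k, hk⟩
    · right
      exact ⟨9 * x, mem_nX_zero hx, 3 + 9 * y, mem_nX_of (by decide) hy, by omega, k,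
        by push_cast; linarith⟩
    · right
      exact ⟨3 + 9 * y, mem_nX_of (by decide) hy, 9 * x, mem_nX_zero hx, by omega, k,
        by push_cast; linarith⟩
  · -- 7
    obtain ⟨a, ha, b, hb, hab, k, hk⟩ := hB.le q
    right
    exact ⟨3 + 9 * a, mem_nX_of (by decide) ha, 5 + 9 * b, mem_nX_of (by decide) hb, by omega, k,
      by push_cast; linarith⟩
  · -- 8
    obtain ⟨a, ha, b, hb, hab, k, hk⟩ := hB.le q
    right
    exact ⟨2 + 9 * a, mem_nX_of (by decide) ha, 5 + 9 * b, mem_nX_of (by decide) hb, by omega, k,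
      by push_cast; linarith⟩

theorem p1_nX {X B : Finset ℕ} {M : ℕ} (hB : Cov B M) (hP2 : P2 X B M) :
    P1 (nX X B) (nB B) (9 * M) := by
  intro r
  have h0 : r = r % 9 + 9 * (r / 9) := by omega
  have h1 : 0 ≤ r % 9 := by omega
  have h2 : r % 9 < 9 := by omega
  generalize r % 9 = s at h0 h1 h2
  generalize r / 9 = q at h0
  subst h0
  interval_cases s
  · obtain ⟨a, ha, b, hb, hab, k, hk⟩ := hB.le (q - 1)
    right
    exact ⟨5 + 9 * b, mem_nX_of (by decide) hb, 0 + 9 * a, mem_nB_of (by decide) ha, by omega, k,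
      by push_cast; linarith⟩
  · rcases hB q with ⟨b, hb, k, hk⟩ | ⟨a, ha, b, hb, hab, k, hk⟩
    · obtain ⟨x, hx, y, hy, hxy, l, hl⟩ := hP2 b hb
      left
      exact ⟨9 * x, mem_nX_zero hx, 5 + 9 * y, mem_nB_of (by decide) hy, by omega, k + l,
        by push_cast; linarith⟩
    · left
      exact ⟨3 + 9 * a, mem_nX_of (by decide) ha, 2 + 9 * b, mem_nB_of (by decide) hb, by omega, k,
        by push_cast; linarith⟩
  · obtain ⟨a, ha, b, hb, hab, k, hk⟩ := hB.le q
    left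
    exact ⟨2 + 9 * a, mem_nX_of (by decide) ha, 2 + 9 * b, mem_nB_of (by decide) hb, by omega, k,
      by push_cast; linarith⟩
  · obtain ⟨a, ha, b, hb, hab, k, hk⟩ := hB.le q
    left
    exact ⟨3 + 9 * a, mem_nX_of (by decide) ha, 3 + 9 * b, mem_nB_of (by decide) hb, by omega, k,
      by push_cast; linarith⟩
  · obtain ⟨a, ha, b, hb, hab, k, hk⟩ := hB.le q
    left
    exact ⟨2 + 9 * a, mem_nX_of (by decide) ha, 3 + 9 * b, mem_nB_of (by decide) hb, by omega, k,
      by push_cast; linarith⟩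
  · obtain ⟨a, ha, b, hb, hab, k, hk⟩ := hB.le q
    left
    exact ⟨5 + 9 * a, mem_nX_of (by decide) ha, 5 + 9 * b, mem_nB_of (by decide) hb, by omega, k,
      by push_cast; linarith⟩
  · obtain ⟨a, ha, b, hb, hab, k, hk⟩ := hB.le q
    right
    exact ⟨5 + 9 * b, mem_nX_of (by decide) hb, 3 + 9 * a, mem_nB_of (by decide) ha, by omega, k,
      by push_cast; linarith⟩
  · obtain ⟨a, ha, b, hb, hab, k, hk⟩ := hB.le q
    left
    exact ⟨3 + 9 * a, mem_nX_of (by decide) ha, 5 + 9 * b, mem_nB_of (by decide) hb, by omega, k,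
      by push_cast; linarith⟩
  · obtain ⟨a, ha, b, hb, hab, k, hk⟩ := hB.le q
    left
    exact ⟨2 + 9 * a, mem_nX_of (by decide) ha, 5 + 9 * b, mem_nB_of (by decide) hb, by omega, k,
      by push_cast; linarith⟩

theorem p2_nX {X B : Finset ℕ} {M : ℕ} (hB : Cov B M) (hP2 : P2 X B M) :
    P2 (nX X B) (nB B) (9 * M) := by
  intro r hr
  obtain ⟨b0, hb0, b1, hb1, rfl⟩ := mem_prd.mp hr
  simp only [C4, Finset.mem_insert, Finset.mem_singleton] at hb0
  rcases hb0 with rfl | rfl | rfl | rfl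
  · obtain ⟨a, ha, b, hb, hab, k, hk⟩ := hB.le ((b1 : ℤ) - 1)
    exact ⟨2 + 9 * a, mem_nX_of (by decide) ha, 5 + 9 * b, mem_nB_of (by decide) hb, by omega, k,
      by push_cast; linarith⟩
  · obtain ⟨x, hx, y, hy, hxy, l, hl⟩ := hP2 b1 hb1
    exact ⟨9 * x, mem_nX_zero hx, 5 + 9 * y, mem_nB_of (by decide) hy, by omega, l,
        by push_cast; linarith⟩
  · obtain ⟨a, ha, b, hb, hab, k, hk⟩ := hB.le (b1 : ℤ)
    exact ⟨2 + 9 * a, mem_nX_of (by decide) ha, 2 + 9 * b, mem_nB_of (by decide) hb, by omega, k,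
      by push_cast; linarith⟩
  · obtain ⟨a, ha, b, hb, hab, k, hk⟩ := hB.le (b1 : ℤ)
    exact ⟨2 + 9 * a, mem_nX_of (by decide) ha, 3 + 9 * b, mem_nB_of (by decide) hb, by omega, k,
      by push_cast; linarith⟩

theorem Pair.step {X B : Finset ℕ} {M j m : ℕ} (h : Pair X B M j m) :
    Pair (nX X B) (nB B) (9 * M) (j + 2) (9 * m) := by
  refine ⟨⟨?_, ?_, ?_, ?_, ?_, ?_, ?_⟩, ?_, ?_, ?_, ?_, ?_, ?_⟩
  · have := h.good.pos; omega
  · have := mem_nX_zero (B := B) h.good.zero; simpa using this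
  · exact mem_nX_zero h.good.mem
  · intro x hx
    rcases Finset.mem_union.mp hx with hx | hx
    · obtain ⟨y, hy, rfl⟩ := Finset.mem_image.mp hx
      have := h.good.le y hy; omega
    · obtain ⟨a, ha, b, hb, rfl⟩ := mem_prd.mp hx
      have := h.lt b hb
      simp only [C3, Finset.mem_insert, Finset.mem_singleton] at ha
      rcases ha with rfl | rfl | rfl <;> omega
  · exact card_nX h.good.card h.card
  · exact free_nX h.good.free h.free
  · exact cov_nX h.good.cov h.cov h.p1 h.p2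
  · intro x hx
    obtain ⟨a, ha, b, hb, rfl⟩ := mem_prd.mp hx
    have := h.lt b hb
    simp only [C4, Finset.mem_insert, Finset.mem_singleton] at ha
    rcases ha with rfl | rfl | rfl | rfl <;> omega
  · unfold nB
    rw [card_prd (by norm_num) free_C4, card_C4, h.card, pow_add]; ring
  · exact free_prd (by norm_num) free_C4 h.free
  · exact cov_prd (by norm_num) cov_C4 h.cov
  · exact p1_nX h.cov h.p2
  · exact p2_nX h.cov h.p2

end Pool.Agent.U447.Stanley
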