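import Mathlib
import Pool.Agent.U447.Stanley.Defs

set_option autoImplicit false

/-! # From a modular set to an independent Stanley sequence -/

namespace Pool.Agent.U447.Stanley

/-- Binary digits read in base three. -/
def sg : ℕ → ℕ
  | 0 => 0
  | n + 1 => 3 * sg ((n + 1) / 2) + (n + 1) % 2

lemma sg_zero : sg 0 = 0 := by rw [sg]

lemma sg_eq (n : ℕ) : sg n = 3 * sg (n / 2) + n % 2 := by
  cases n with
  | zero => simp [sg_zero]
  | succ n => rw [sg]

lemma sg_even (n : ℕ) : sg (2 * n) = 3 * sg n := by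
  rw [sg_eq]
  have h1 : 2 * n / 2 = n := by omega
  have h2 : 2 * n % 2 = 0 := by omega
  rw [h1, h2]; rfl

lemma sg_odd (n : ℕ) : sg (2 * n + 1) = 3 * sg n + 1 := by
  rw [sg_eq]
  have h1 : (2 * n + 1) / 2 = n := by omega
  have h2 : (2 * n + 1) % 2 = 1 := by omega
  rw [h1, h2]

lemma sg_strictMono : StrictMono sg := by
  have key : ∀ m n : ℕ, n < m → sg n < sg m := by
    intro m
    induction m using Nat.strong_induction_on with
    | _ m ih =>
      intro n hn
      rw [sg_eq n, sg_eq m]
      rcases Nat.lt_or_ge (n / 2) (m / 2) with h | h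
      · have := ih (m / 2) (by omega) (n / 2) h
        omega
      · have h1 : n / 2 = m / 2 := by omega
        rw [h1]; omega
  intro n m h; exact key m n h

lemma sg_free : ∀ n m p : ℕ, sg n + sg p = 2 * sg m → n = m ∧ m = p := by
  intro n
  induction n using Nat.strong_induction_on with
  | _ n ih =>
    intro m p h
    rcases Nat.eq_zero_or_pos n with h0 | h0
    · subst h0
      -- 0 + sg p = 2 sg m
      by_contra hne
      -- use strong induction on p instead
      have key : ∀ p m : ℕ, sg p = 2 * sg m → m = 0 ∧ p = 0 := by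
        intro p
        induction p using Nat.strong_induction_on with
        | _ p ihp =>
          intro m h
          rcases Nat.eq_zero_or_pos p with hp | hp
          · subst hp
            rw [sg_zero] at h
            have : sg m = sg 0 := by rw [sg_zero]; omega
            exact ⟨sg_strictMono.injective this, rfl⟩
          · rw [sg_eq p, sg_eq m] at h
            have h1 : p % 2 = 0 ∧ m % 2 = 0 := by omega
            have h2 : sg (p / 2) = 2 * sg (m / 2) := by omega
            have := ihp (p / 2) (by omega) (m / 2) h2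
            omega
      rw [sg_zero, zero_add] at h
      have := key p m h
      omega
    · rw [sg_eq n, sg_eq m, sg_eq p] at h
      have h1 : n % 2 = m % 2 ∧ m % 2 = p % 2 := by omega
      have h2 : sg (n / 2) + sg (p / 2) = 2 * sg (m / 2) := by omega
      have := ih (n / 2) (by omega) (m / 2) (p / 2) h2
      omega

lemma sg_cov : ∀ q : ℕ, ∃ n m : ℕ, n ≤ m ∧ q + sg n = 2 * sg m := by
  intro q
  induction q using Nat.strong_induction_on with
  | _ q ih =>
    rcases Nat.eq_zero_or_pos q with h0 | h0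
    · subst h0; exact ⟨0, 0, le_rfl, by rw [sg_zero]⟩
    · obtain ⟨n, m, hnm, h⟩ := ih (q / 3) (by omega)
      have h3 : q % 3 = 0 ∨ q % 3 = 1 ∨ q % 3 = 2 := by omega
      rcases h3 with h3 | h3 | h3
      · exact ⟨2 * n, 2 * m, by omega, by rw [sg_even, sg_even]; omega⟩
      · exact ⟨2 * n + 1, 2 * m + 1, by omega, by rw [sg_odd, sg_odd]; omega⟩
      · exact ⟨2 * n, 2 * m + 1, by omega, by rw [sg_even, sg_odd]; omega⟩

lemma sg_bound : ∀ K n : ℕ, n < 2 ^ K → 2 * sg n + 1 ≤ 3 ^ K := by
  intro K
  induction K with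
  | zero => intro n h; have : n = 0 := by simpa using h
            subst this; rw [sg_zero]; norm_num
  | succ K ih =>
    intro n h
    have := ih (n / 2) (by rw [pow_succ] at h; omega)
    rw [sg_eq, pow_succ]; omega

lemma sg_top : ∀ K : ℕ, 2 * sg (2 ^ K - 1) + 1 = 3 ^ K := by
  intro K
  induction K with
  | zero => simp [sg_zero]
  | succ K ih =>
    have hp : 0 < 2 ^ K := by positivity
    have h1 : 2 ^ (K + 1) - 1 = 2 * (2 ^ K - 1) + 1 := by rw [pow_succ]; omega
    rw [h1, sg_odd, pow_succ]; omega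

lemma sg_pow_add : ∀ K n : ℕ, n < 2 ^ K → sg (2 ^ K + n) = 3 ^ K + sg n := by
  intro K
  induction K with
  | zero => intro n h; have : n = 0 := by simpa using h
            subst this
            have : (2 : ℕ) ^ 0 + 0 = 2 * 0 + 1 := by norm_num
            rw [this, sg_odd, sg_zero]; norm_num
  | succ K ih =>
    intro n h
    have h2 : n / 2 < 2 ^ K := by rw [pow_succ] at h; omega
    have h1 := ih (n / 2) h2
    rw [sg_eq (2 ^ (K + 1) + n), sg_eq n]
    have e1 : (2 ^ (K + 1) + n) / 2 = 2 ^ K + n / 2 := by rw [pow_succ]; omega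
    have e2 : (2 ^ (K + 1) + n) % 2 = n % 2 := by rw [pow_succ]; omega
    rw [e1, e2, h1, pow_succ]; ring

lemma le_sg (n : ℕ) : n ≤ sg n := by
  have := sg_strictMono.le_apply (x := n)
  exact this

/-- The infinite set. -/
def inT (A : Finset ℕ) (N : ℕ) (x : ℕ) : Prop := ∃ a ∈ A, ∃ n, x = a + N * sg n

section
variable {A : Finset ℕ} {N j m : ℕ}

lemma inT_unique (h : Good A N j m) {a b n p : ℕ} (ha : a ∈ A) (hb : b ∈ A)
    (he : a + N * sg n = b + N * sg p) : a = b ∧ n = p := by
  have h1 : a = b := by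
    refine h.free.inj ha hb ⟨(sg p : ℤ) - sg n, ?_⟩
    have : (a : ℤ) + N * sg n = b + N * sg p := by exact_mod_cast he
    linarith
  subst h1
  have h2 : N * sg n = N * sg p := by omega
  exact ⟨rfl, sg_strictMono.injective (Nat.eq_of_mul_eq_mul_left h.pos h2)⟩

lemma inT_free (h : Good A N j m) {x y z : ℕ} (hx : inT A N x) (hy : inT A N y) (hz : inT A N z)
    (he : x + z = 2 * y) : x = y := by
  obtain ⟨a, ha, n, rfl⟩ := hx
  obtain ⟨b, hb, p, rfl⟩ := hy
  obtain ⟨c, hc, q, rfl⟩ := hz
  have he' : (a : ℤ) + N * sg n + (c + N * sg q) = 2 * (b + N * sg p) := by exact_mod_cast he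
  obtain ⟨e1, e2⟩ := h.free a ha b hb c hc ⟨2 * (sg p : ℤ) - sg n - sg q, by linarith⟩
  subst e1; subst e2
  have h2 : N * (sg n + sg q) = N * (2 * sg p) := by
    have : a + N * sg n + (a + N * sg q) = 2 * (a + N * sg p) := he
    nlinarith
  obtain ⟨e1, e2⟩ := sg_free n p q (Nat.eq_of_mul_eq_mul_left h.pos h2)
  subst e1; rfl

lemma inT_cover (h : Good A N j m) {x : ℕ} (hx : ¬ inT A N x) (hL : 2 * m ≤ x) :
    ∃ y z, inT A N y ∧ inT A N z ∧ y < z ∧ z < x ∧ y + x = 2 * z := by
  have hN : (0 : ℤ) < N := by exact_mod_cast h.pos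
  rcases h.cov x with ⟨a, ha, k, hk⟩ | ⟨a, ha, b, hb, hab, k, hk⟩
  · have ham := h.le a ha
    have hk0 : k ≤ 0 := by
      by_contra hc
      push Not at hc
      have : 0 < (N : ℤ) * k := by positivity
      have : (a : ℤ) ≤ x := by exact_mod_cast (by omega : a ≤ x)
      linarith
    obtain ⟨q, hq⟩ := Int.eq_ofNat_of_zero_le (by linarith : 0 ≤ -k)
    have hxq : x = a + N * q := by
      have : (x : ℤ) = a + N * q := by rw [← hq]; linarith
      exact_mod_cast this
    obtain ⟨n, p, hnp, hnq⟩ := sg_cov q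
    have hne : n ≠ p := by
      rintro rfl
      apply hx
      exact ⟨a, ha, n, by rw [hxq]; congr 2; omega⟩
    have hlt : sg n < sg p := sg_strictMono (lt_of_le_of_ne hnp hne)
    have hlt' : N * sg n < N * sg p := Nat.mul_lt_mul_of_pos_left hlt h.pos
    have hsum : N * q + N * sg n = 2 * (N * sg p) := by rw [← Nat.mul_add, hnq]; ring
    exact ⟨a + N * sg n, a + N * sg p, ⟨a, ha, n, rfl⟩, ⟨a, ha, p, rfl⟩, by omega, by omega, by omega⟩
  · have hbm := h.le b hb
    have hk0 : k ≤ 0 := by
      by_contra hc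
      push Not at hc
      have h1 : 0 < (N : ℤ) * k := by positivity
      have h2 : (2 * b : ℤ) ≤ x := by exact_mod_cast (by omega : 2 * b ≤ x)
      have h3 : (0 : ℤ) ≤ a := by positivity
      linarith
    obtain ⟨q, hq⟩ := Int.eq_ofNat_of_zero_le (by linarith : 0 ≤ -k)
    have hxq : x + a = 2 * b + N * q := by
      have : (x : ℤ) + a = 2 * b + N * q := by rw [← hq]; linarith
      exact_mod_cast this
    obtain ⟨n, p, hnp, hnq⟩ := sg_cov q
    have hle : N * sg n ≤ N * sg p := Nat.mul_le_mul_left N (sg_strictMono.monotone hnp)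
    have hsum : N * q + N * sg n = 2 * (N * sg p) := by rw [← Nat.mul_add, hnq]; ring
    exact ⟨a + N * sg n, b + N * sg p, ⟨a, ha, n, rfl⟩, ⟨b, hb, p, rfl⟩, by omega, by omega, by omega⟩

open Classical in
theorem main (h : Good A N j m) (r : ℤ) (hr : r = 2 * m + 1 - N) :
    ∃ a : ℕ → ℕ, ∃ t : ℕ, StrictMono a ∧
        (∀ i j k : ℕ, i < j → j < k → a i + a k ≠ 2 * a j) ∧
        (∀ n : ℕ, t < n → ∀ m : ℕ, a (n - 1) < m → m < a n →
          ∃ i j : ℕ, i < j ∧ j < n ∧ a i + m = 2 * a j) ∧
        (∃ k : ℕ, ∀ k' : ℕ, k ≤ k' →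
          (∀ i : ℕ, i < 2 ^ k' → a (2 ^ k' + i) = a (2 ^ k') + a i) ∧
          ((a (2 ^ k') : ℤ) = 2 * (a (2 ^ k' - 1) : ℤ) - r + 1)) := by
  have hinf : (Set.ofPred (inT A N)).Infinite := by
    have : Set.InjOn (fun n : ℕ => N * sg n) Set.univ := by
      intro a _ b _ hab
      exact sg_strictMono.injective (Nat.eq_of_mul_eq_mul_left h.pos hab)
    refine Set.infinite_of_injective_forall_mem (f := fun n : ℕ => N * sg n) ?_ ?_
    · intro a b hab
      exact sg_strictMono.injective (Nat.eq_of_mul_eq_mul_left h.pos hab)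
    · intro n
      exact ⟨0, h.zero, n, by simp⟩
  set s : ℕ → ℕ := Nat.nth (inT A N) with hs
  have hmono : StrictMono s := Nat.nth_strictMono hinf
  have hsT : ∀ i, inT A N (s i) := fun i => Nat.nth_mem_of_infinite hinf i
  have hsurj : ∀ x, inT A N x → s (Nat.count (inT A N) x) = x := fun x hx => Nat.nth_count hx
  have hcount : ∀ i, Nat.count (inT A N) (s i) = i := fun i => Nat.count_nth_of_infinite hinf i
  refine ⟨s, 2 * m, hmono, ?_, ?_, ?_⟩
  · intro i i' k hij hjk he
    have := inT_free h (hsT i) (hsT i') (hsT k) he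
    have h2 := hmono hij
    omega
  · intro n hn x hx1 hx2
    have hxT : ¬ inT A N x := by
      intro hxT
      have e := hsurj x hxT
      set c := Nat.count (inT A N) x
      rw [← e] at hx1 hx2
      have h1 := hmono.lt_iff_lt.mp hx1
      have h2 := hmono.lt_iff_lt.mp hx2
      omega
    have hxL : 2 * m ≤ x := by
      have h1 : n - 1 ≤ s (n - 1) := hmono.le_apply
      omega
    obtain ⟨y, z, hy, hz, hyz, hzx, he⟩ := inT_cover h hxT hxL
    refine ⟨Nat.count (inT A N) y, Nat.count (inT A N) z, ?_, ?_, ?_⟩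
    · apply hmono.lt_iff_lt.mp; rw [hsurj y hy, hsurj z hz]; exact hyz
    · apply hmono.lt_iff_lt.mp; rw [hsurj z hz]; omega
    · rw [hsurj y hy, hsurj z hz]; exact he
  · -- independence
    have hlow : ∀ K x, m ≤ 3 ^ K → inT A N x → x < N * 3 ^ K → ∃ a ∈ A, ∃ n, n < 2 ^ K ∧ x = a + N * sg n := by
      intro K x _ hx hxl
      obtain ⟨a, ha, n, rfl⟩ := hx
      refine ⟨a, ha, n, ?_, rfl⟩
      by_contra hc
      push Not at hc
      have h1 : 3 ^ K ≤ sg n := by
        have h2 := sg_strictMono.monotone hc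
        have h3 := sg_pow_add K 0 (by positivity)
        rw [add_zero, sg_zero, add_zero] at h3
        omega
      have := Nat.mul_le_mul_left N h1
      omega
    have hup : ∀ K a n, 2 * m < 3 ^ K → a ∈ A → n < 2 ^ K → a + N * sg n < N * 3 ^ K := by
      intro K a n hK ha hn
      have h1 := sg_bound K n hn
      have h2 := h.le a ha
      have h3 : N * (2 * sg n + 1) ≤ N * 3 ^ K := Nat.mul_le_mul_left N h1
      have h4 : 1 * 3 ^ K ≤ N * 3 ^ K := Nat.mul_le_mul_right _ h.pos
      have h5 : N * (2 * sg n + 1) = 2 * (N * sg n) + N := by ring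
      have := h.pos
      omega
    have hcnt : ∀ K, 2 * m < 3 ^ K → Nat.count (inT A N) (N * 3 ^ K) = 2 ^ (j + K) := by
      intro K hK
      rw [Nat.count_eq_card_filter_range]
      have e : (Finset.range (N * 3 ^ K)).filter (inT A N)
          = (A ×ˢ Finset.range (2 ^ K)).image (fun p => p.1 + N * sg p.2) := by
        ext x
        simp only [Finset.mem_filter, Finset.mem_range, Finset.mem_image, Finset.mem_product, Prod.exists]
        constructor
        · rintro ⟨hx1, hx2⟩
          obtain ⟨a, ha, n, hn, rfl⟩ := hlow K x (by omega) hx2 hx1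
          exact ⟨a, n, ⟨ha, hn⟩, rfl⟩
        · rintro ⟨a, n, ⟨ha, hn⟩, rfl⟩
          exact ⟨hup K a n hK ha hn, ⟨a, ha, n, rfl⟩⟩
      rw [e, Finset.card_image_of_injOn, Finset.card_product, Finset.card_range, h.card, pow_add]
      rintro ⟨a, n⟩ hp ⟨b, p⟩ hp' he
      simp only [Finset.coe_product, Set.mem_prod, Finset.mem_coe] at hp hp'
      obtain ⟨e1, e2⟩ := inT_unique h hp.1 hp'.1 he
      subst e1; subst e2; rfl
    obtain ⟨K0, hK0⟩ : ∃ K0, 2 * m < 3 ^ K0 := ⟨2 * m, Nat.lt_pow_self (by norm_num)⟩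
    refine ⟨j + K0, ?_⟩
    intro k' hk'
    obtain ⟨K, rfl⟩ : ∃ K, k' = j + K := ⟨k' - j, by omega⟩
    have hK : 2 * m < 3 ^ K := lt_of_lt_of_le hK0 (Nat.pow_le_pow_right (by norm_num) (by omega))
    have hpT : inT A N (N * 3 ^ K) := by
      refine ⟨0, h.zero, 2 ^ K, ?_⟩
      have h3 := sg_pow_add K 0 (by positivity)
      rw [add_zero, sg_zero, add_zero] at h3
      rw [h3]; simp
    have hp : s (2 ^ (j + K)) = N * 3 ^ K := by
      rw [← hcnt K hK]; exact hsurj _ hpT
    have hshift : ∀ y, y < N * 3 ^ K → (inT A N (N * 3 ^ K + y) ↔ inT A N y) := by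
      intro y hy
      constructor
      · rintro ⟨a, ha, n, hn⟩
        have h1 : 2 ^ K ≤ n := by
          by_contra hc
          push Not at hc
          have := hup K a n hK ha hc
          omega
        have h2 : n < 2 ^ (K + 1) := by
          by_contra hc
          push Not at hc
          have h3 : 3 ^ (K + 1) ≤ sg n := by
            have h2 := sg_strictMono.monotone hc
            have h3 := sg_pow_add (K + 1) 0 (by positivity)
            rw [add_zero, sg_zero, add_zero] at h3
            omega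
          have h4 := Nat.mul_le_mul_left N h3
          have h5 : N * 3 ^ (K + 1) = 3 * (N * 3 ^ K) := by ring
          omega
        obtain ⟨n', rfl⟩ : ∃ n', n = 2 ^ K + n' := ⟨n - 2 ^ K, by omega⟩
        have h3 : n' < 2 ^ K := by rw [pow_succ] at h2; omega
        rw [sg_pow_add K n' h3, Nat.mul_add] at hn
        exact ⟨a, ha, n', by omega⟩
      · intro hyT
        obtain ⟨a, ha, n, hn, rfl⟩ := hlow K y (by omega) hyT hy
        refine ⟨a, ha, 2 ^ K + n, ?_⟩
        rw [sg_pow_add K n hn]; ring
    have hcshift : ∀ x, x ≤ N * 3 ^ K →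
        Nat.count (inT A N) (N * 3 ^ K + x) = 2 ^ (j + K) + Nat.count (inT A N) x := by
      intro x hx
      rw [Nat.count_add, hcnt K hK]
      congr 1
      rw [Nat.count_eq_card_filter_range, Nat.count_eq_card_filter_range]
      congr 1
      apply Finset.filter_congr
      intro y hy
      exact hshift y (lt_of_lt_of_le (Finset.mem_range.mp hy) hx)
    constructor
    · intro i hi
      have h1 : s i < N * 3 ^ K := by rw [← hp]; exact hmono hi
      have h2 : inT A N (N * 3 ^ K + s i) := (hshift _ h1).mpr (hsT i)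
      have h3 := hcshift (s i) h1.le
      rw [hcount i] at h3
      rw [← h3, hsurj _ h2, hp]
    · -- last element
      have hpow : 0 < 2 ^ K := by positivity
      have htop := sg_top K
      set z := m + N * sg (2 ^ K - 1) with hz
      have hzT : inT A N z := ⟨m, h.mem, 2 ^ K - 1, rfl⟩
      have hzl : z < N * 3 ^ K := hup K m _ hK h.mem (by omega)
      have hgap : ∀ x, z < x → x < N * 3 ^ K → ¬ inT A N x := by
        intro x hx1 hx2 hxT
        obtain ⟨a, ha, n, hn, rfl⟩ := hlow K x (by omega) hxT hx2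
        have h1 := h.le a ha
        have h2 : sg n ≤ sg (2 ^ K - 1) := sg_strictMono.monotone (by omega)
        have h3 := Nat.mul_le_mul_left N h2
        omega
      have hcz : Nat.count (inT A N) z + 1 = 2 ^ (j + K) := by
        rw [← hcnt K hK]
        have h1 : Nat.count (inT A N) (z + 1) = Nat.count (inT A N) z + 1 := by
          rw [Nat.count_succ, if_pos hzT]
        rw [← h1]
        obtain ⟨d, hd⟩ : ∃ d, N * 3 ^ K = (z + 1) + d := ⟨N * 3 ^ K - (z + 1), by omega⟩
        rw [hd, Nat.count_add (inT A N) (z + 1) d]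
        have : Nat.count (fun k => inT A N (z + 1 + k)) d = 0 := by
          rw [Nat.count_eq_card_filter_range, Finset.card_eq_zero, Finset.filter_eq_empty_iff]
          intro y hy
          exact hgap _ (by omega) (by have := Finset.mem_range.mp hy; omega)
        omega
      have hsz : s (2 ^ (j + K) - 1) = z := by
        rw [← hcz, Nat.add_sub_cancel]; exact hsurj _ hzT
      rw [hp, hsz, hz, hr]
      have htop' : 2 * (sg (2 ^ K - 1) : ℤ) + 1 = 3 ^ K := by exact_mod_cast htop
      push_cast
      rw [← htop']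
      ring
end

end Pool.Agent.U447.Stanley
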