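import Mathlib
import Pool.Agent.U447.Stanley.Defs
import Pool.Agent.U447.Stanley.Rec
import Pool.Agent.U447.Stanley.Seq
import Pool.Agent.U447.Stanley.Base

set_option autoImplicit false

/-! # Every admissible character is attained -/

namespace Pool.Agent.U447.Stanley

lemma GdL.lift {lam N : ℕ} (h : GdL lam N) (h0 : 1 < lam + N) (t : ℕ) : GdL (lam + 2 * N * t) N := by
  obtain ⟨A, j, m, h1, h2⟩ := h
  exact ⟨_, j, _, h1.lift (by omega) t, by rw [Nat.mul_add, ← Nat.mul_assoc]; omega⟩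

lemma GdL.prd {l1 l2 N M : ℕ} (h : GdL l1 N) (h' : GdL l2 M) : GdL (l1 + N * l2) (N * M) := by
  obtain ⟨A, j, m, h1, h2⟩ := h
  obtain ⟨B, k, m', h3, h4⟩ := h'
  refine ⟨_, _, _, h1.prd h3, ?_⟩
  have h5 : N * (2 * m' + 1) = N * (l2 + M) := by rw [h4]
  nlinarith

lemma PrL.step {w M : ℕ} (h : PrL (1 + w) M) : PrL (1 + 9 * w) (9 * M) := by
  obtain ⟨X, B, j, m, h1, h2⟩ := h
  exact ⟨_, _, _, _, h1.step, by omega⟩

lemma PrL.pow {w M : ℕ} (h : PrL (1 + w) M) (n : ℕ) : PrL (1 + 9 ^ n * w) (9 ^ n * M) := by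
  induction n with
  | zero => simpa using h
  | succ n ih =>
    have := ih.step
    rw [← Nat.mul_assoc, ← Nat.mul_assoc] at this
    rw [pow_succ, Nat.mul_comm (9 ^ n) 9]; exact this

/-- From bases at exponents `1` and `2` to all positive exponents. -/
lemma two_bases {u M1 M2 : ℕ} (h1 : PrL (1 + 3 * u) M1) (h2 : PrL (1 + 9 * u) M2) (v : ℕ) (hv : 0 < v) :
    (∃ n, v = 2 * n + 1 ∧ PrL (1 + 3 ^ v * u) (9 ^ n * M1)) ∨
      (∃ n, v = 2 * n + 2 ∧ PrL (1 + 3 ^ v * u) (9 ^ n * M2)) := by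
  rcases Nat.even_or_odd' v with ⟨n, hn | hn⟩
  · right
    refine ⟨n - 1, by omega, ?_⟩
    have h3 := h2.pow (n - 1)
    have e : 3 ^ v * u = 9 ^ (n - 1) * (9 * u) := by
      have e1 : v = 2 * (n - 1) + 2 := by omega
      rw [e1, pow_add, pow_mul]; norm_num; ring
    rw [e]; exact h3
  · left
    refine ⟨n, by omega, ?_⟩
    have h3 := h1.pow n
    have e : 3 ^ v * u = 9 ^ n * (3 * u) := by
      rw [hn, pow_add, pow_mul]; norm_num; ring
    rw [e]; exact h3

lemma even_case (v u : ℕ) (hu : u % 2 = 1) (h3 : u % 3 ≠ 0) : GdL (1 + 3 ^ v * u) (3 ^ (v + 1)) := by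
  have h6 : u % 6 = 1 ∨ u % 6 = 5 := by omega
  rcases Nat.eq_zero_or_pos v with hv | hv
  · subst hv
    rcases h6 with h6 | h6
    · obtain ⟨t, rfl⟩ : ∃ t, u = 6 * t + 1 := ⟨u / 6, by omega⟩
      have := g2.lift (by norm_num) t
      have e : 1 + 3 ^ 0 * (6 * t + 1) = 2 + 2 * 3 * t := by ring
      rw [e]; exact this
    · obtain ⟨t, rfl⟩ : ∃ t, u = 6 * t + 5 := ⟨u / 6, by omega⟩
      have := g0.lift (by norm_num) (t + 1)
      have e : 1 + 3 ^ 0 * (6 * t + 5) = 0 + 2 * 3 * (t + 1) := by ring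
      rw [e]; exact this
  · have h1 : PrL (1 + 3 * u) 9 := by
      rcases h6 with h6 | h6
      · obtain ⟨t, rfl⟩ : ∃ t, u = 6 * t + 1 := ⟨u / 6, by omega⟩
        have := e4.lift t
        convert this using 1; ring
      · obtain ⟨t, rfl⟩ : ∃ t, u = 6 * t + 5 := ⟨u / 6, by omega⟩
        have := e16.lift t
        convert this using 1; ring
    have h2 : PrL (1 + 9 * u) 27 := by
      rcases h6 with h6 | h6
      · obtain ⟨t, rfl⟩ : ∃ t, u = 6 * t + 1 := ⟨u / 6, by omega⟩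
        have := e10.lift t
        convert this using 1; ring
      · obtain ⟨t, rfl⟩ : ∃ t, u = 6 * t + 5 := ⟨u / 6, by omega⟩
        have := e46.lift t
        convert this using 1; ring
    rcases two_bases h1 h2 v hv with ⟨n, hn, h⟩ | ⟨n, hn, h⟩
    · have e : 3 ^ (v + 1) = 9 ^ n * 9 := by
        rw [hn]
        have : 2 * n + 1 + 1 = 2 * (n + 1) := by ring
        rw [this, pow_mul]; norm_num [pow_succ]
      rw [e]; exact h.gl
    · have e : 3 ^ (v + 1) = 9 ^ n * 27 := by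
        rw [hn]
        have : 2 * n + 2 + 1 = 2 * n + 3 := by ring
        rw [this, pow_add, pow_mul]; norm_num
      rw [e]; exact h.gl

lemma small_case {u M1 M2 : ℕ} (h1 : PrL (1 + 3 * u) M1) (h2 : PrL (1 + 9 * u) M2) (v : ℕ) (hv : 0 < v) :
    ∃ N, GdL (1 + 3 ^ v * u) N := by
  rcases two_bases h1 h2 v hv with ⟨n, _, h⟩ | ⟨n, _, h⟩
  · exact ⟨_, h.gl⟩
  · exact ⟨_, h.gl⟩

lemma odd_case (v u : ℕ) (hu : u % 2 = 0) (h3 : u % 3 ≠ 0)
    (hex : v = 0 → u ≠ 2 ∧ u ≠ 4 ∧ u ≠ 8 ∧ u ≠ 10 ∧ u ≠ 14) : ∃ N, GdL (1 + 3 ^ v * u) N := by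
  by_cases hbig : 22 ≤ u
  · have h1 := even_case v (u - 21) (by omega) (by omega)
    have h2 := h1.prd g7
    refine ⟨3 ^ (v + 1) * 10, ?_⟩
    have e : 1 + 3 ^ v * u = 1 + 3 ^ v * (u - 21) + 3 ^ (v + 1) * 7 := by
      obtain ⟨w, rfl⟩ : ∃ w, u = w + 21 := ⟨u - 21, by omega⟩
      rw [Nat.add_sub_cancel, pow_succ]; ring
    rw [e]; exact h2
  · rcases Nat.eq_zero_or_pos v with hv | hv
    · subst hv
      have := hex rfl
      have h4 : u = 16 ∨ u = 20 := by omega
      rcases h4 with rfl | rfl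
      · exact ⟨28, by simpa using g17⟩
      · exact ⟨30, by simpa using g21⟩
    · have h4 : u = 2 ∨ u = 4 ∨ u = 8 ∨ u = 10 ∨ u = 14 ∨ u = 16 ∨ u = 20 := by omega
      rcases h4 with rfl | rfl | rfl | rfl | rfl | rfl | rfl
      · -- u = 2
        by_cases hv1 : v = 1
        · subst hv1; exact ⟨10, by simpa using g7⟩
        · obtain ⟨w, rfl⟩ : ∃ w, v = w + 1 := ⟨v - 1, by omega⟩
          have h5 := small_case (u := 6) (M1 := 30) (M2 := 90) (by simpa using o19) (by simpa using o55) w (by omega)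
          have e : 3 ^ (w + 1) * 2 = 3 ^ w * 6 := by rw [pow_succ]; ring
          rw [e]; exact h5
      · exact small_case (M1 := 30) (M2 := 28) (by simpa using o13) (by simpa using o37) v hv
      · exact small_case (M1 := 32) (M2 := 28) (by simpa using o25) (by simpa using o73) v hv
      · exact small_case (M1 := 28) (M2 := 28) (by simpa using o31) (by simpa using o91) v hv
      · exact small_case (M1 := 30) (M2 := 30) (by simpa using o43) (by simpa using o127) v hv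
      · exact small_case (M1 := 90) (M2 := 90) (by simpa using o49) (by simpa using o145) v hv
      · exact small_case (M1 := 90) (M2 := 84) (by simpa using o61) (by simpa using o181) v hv

theorem all_cases (l : ℕ) (h1 : l ≠ 1) (h3 : l ≠ 3) (h5 : l ≠ 5) (h9 : l ≠ 9) (h11 : l ≠ 11) (h15 : l ≠ 15) :
    ∃ N, GdL l N := by
  rcases Nat.eq_zero_or_pos l with h0 | h0
  · subst h0; exact ⟨3, g0⟩
  · obtain ⟨v, u, hu, huv⟩ := Nat.exists_eq_pow_mul_and_not_dvd (n := l - 1) (by omega) 3 (by norm_num)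
    have hl : l = 1 + 3 ^ v * u := by omega
    have hu3 : u % 3 ≠ 0 := by omega
    rw [hl]
    rcases Nat.mod_two_eq_zero_or_one u with h2 | h2
    · refine odd_case v u h2 hu3 ?_
      intro hv
      subst hv
      rw [pow_zero, one_mul] at hl
      omega
    · exact ⟨_, even_case v u h2 hu3⟩

end Pool.Agent.U447.Stanley
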